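import Pool.Agent.H23.JetMain

set_option autoImplicit false

namespace Pool.Agent.Results.MP_c360fa_mp.FiniteAnnihilator

open MvPolynomial Pool.Agent.H23.Jet

/-- Negative answer to Q1: there are `n > m > 1`, `f = f(u_0,…,u_n)` with `f_n ≠ 0` and
`g = g(u_0,…,u_m)` with `g_m ≠ 0` such that `f * g = 0` and `H(g)` is finite-dimensional. -/
theorem result : ∃ n m : ℕ, 1 < m ∧ m < n ∧ ∃ f g : A,
    f ∈ supported ℝ (Set.Iic n) ∧ pderiv n f ≠ 0 ∧
    g ∈ supported ℝ (Set.Iic m) ∧ pderiv m g ≠ 0 ∧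
    jprod f g = 0 ∧ FiniteDimensional ℝ (H g) :=
  Pool.Agent.H23.Jet.main

end Pool.Agent.Results.MP_c360fa_mp.FiniteAnnihilator
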